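import Pool.Agent.Helper57.SI.Stmts

/-! Row DU: upper bounds for the Euler product and its logarithmic derivative. -/

set_option autoImplicit false

namespace Pool.Agent.Helper94.SI

open MeasureTheory Set Filter Topology
open Pool.Agent.Helper57.QZ (Pr tor circ aa Zy Wy Sy Vy Ky Fy pt lin)
open Pool.Agent.Helper57.SI

theorem du_sum_le (y x : ℕ) (g : ℕ → ℝ) (hg : ∀ p, 0 ≤ g p) :
    ∑ p : Pr y, (if (p : ℕ) ≤ x then g p else 0) ≤ ∑ p ∈ Nat.primesBelow (x + 1), g p := by
  have h1 : ∑ p : Pr y, (if (p : ℕ) ≤ x then g p else 0) =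
      ∑ p ∈ Nat.primesBelow (y + 1), (if p ≤ x then g p else 0) :=
    Finset.sum_coe_sort (Nat.primesBelow (y + 1)) (fun p => if p ≤ x then g p else 0)
  rw [h1, ← Finset.sum_filter]
  refine Finset.sum_le_sum_of_subset_of_nonneg ?_ fun p _ _ => hg p
  intro p hp
  rw [Finset.mem_filter] at hp
  rw [Nat.mem_primesBelow]
  exact ⟨by omega, Nat.prime_of_mem_primesBelow hp.1⟩

theorem du_aa (p : ℕ) : aa 1 p = 1 / (p : ℝ) := by
  unfold aa
  rw [Real.rpow_neg_one, one_div]

theorem st_DU (h1 : Pool.Agent.Helper57.QZ.ST_DT1) (h2 : Pool.Agent.Helper57.QZ.ST_DT2) :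
    ST_DU := by
  obtain ⟨C, hC⟩ := h2 (1 / 4) (by norm_num)
  refine ⟨C, fun y x φ η t0 t1 => ⟨?_, ?_⟩⟩
  · obtain ⟨hne, hlog, _, _⟩ := h1 y 1 φ (by norm_num)
    have hpos : 0 < ‖Zy y 1 φ‖ := norm_pos_iff.2 hne
    rw [← Real.log_le_iff_le_exp hpos]
    refine hlog.trans ?_
    have hS : Sy y 1 φ = (∑ p : Pr y, if (p : ℕ) ≤ x then 1 / ((p : ℕ) : ℝ) * Real.cos (φ p)
        else 0) + (tl 0 y x φ).re := by
      unfold Sy tl
      rw [Complex.re_sum, ← Finset.sum_add_distrib]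
      refine Finset.sum_congr rfl fun p _ => ?_
      rw [du_aa]
      by_cases hp : (p : ℕ) ≤ x
      · rw [if_pos hp, if_neg (by omega)]
        simp
      · rw [if_neg hp, if_pos (by omega), Complex.re_ofReal_mul, Complex.exp_re]
        simp
    have hS1 : (∑ p : Pr y, if (p : ℕ) ≤ x then 1 / ((p : ℕ) : ℝ) * Real.cos (φ p) else 0) ≤
        P1 x := by
      refine le_trans (Finset.sum_le_sum fun p _ => ?_)
        (du_sum_le y x (fun p => 1 / (p : ℝ)) fun p => by positivity)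
      split_ifs
      · have h3 := Real.cos_le_one (φ p)
        have h4 : 0 ≤ 1 / ((p : ℕ) : ℝ) := by positivity
        nlinarith
      · exact le_rfl
    have hre : (tl 0 y x φ).re ≤ η := (Complex.re_le_norm _).trans t0
    linarith
  · have hV : Vy y 1 φ = (∑ p : Pr y, if (p : ℕ) ≤ x then
        ((Real.log ((p : ℕ) : ℝ) / ((p : ℕ) : ℝ) : ℝ) : ℂ) *
          Complex.exp (-((φ p : ℂ) * Complex.I)) else 0) + tl 1 y x φ := by
      unfold Vy tl
      rw [← Finset.sum_add_distrib]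
      refine Finset.sum_congr rfl fun p _ => ?_
      rw [du_aa]
      by_cases hp : (p : ℕ) ≤ x
      · rw [if_pos hp, if_neg (by omega), add_zero]
        congr 2
        ring
      · rw [if_neg hp, if_pos (by omega), zero_add]
        congr 2
        ring
    have hn : ∀ r : ℝ, ‖Complex.exp (-((r : ℂ) * Complex.I))‖ = 1 := fun r => by
      rw [Complex.norm_exp]
      simp
    have hV1 : ‖∑ p : Pr y, if (p : ℕ) ≤ x then
        ((Real.log ((p : ℕ) : ℝ) / ((p : ℕ) : ℝ) : ℝ) : ℂ) *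
          Complex.exp (-((φ p : ℂ) * Complex.I)) else 0‖ ≤ P2 x := by
      refine (norm_sum_le _ _).trans ?_
      refine le_trans (Finset.sum_le_sum fun p _ => ?_)
        (du_sum_le y x (fun p => Real.log p / (p : ℝ)) fun p => by positivity)
      split_ifs
      · rw [norm_mul, hn, mul_one, Complex.norm_real, Real.norm_eq_abs, abs_of_nonneg]
        have := Real.log_natCast_nonneg (p : ℕ)
        positivity
      · rw [norm_zero]
    have hW : Wy y 1 φ = (Wy y 1 φ + Vy y 1 φ) - Vy y 1 φ := by ring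
    have h3 := hC y 1 φ (by norm_num)
    calc ‖Wy y 1 φ‖ = ‖(Wy y 1 φ + Vy y 1 φ) - Vy y 1 φ‖ := by rw [← hW]
      _ ≤ ‖Wy y 1 φ + Vy y 1 φ‖ + ‖Vy y 1 φ‖ := norm_sub_le _ _
      _ ≤ C + (P2 x + η) := by
        gcongr
        rw [hV]
        exact (norm_add_le _ _).trans (add_le_add hV1 t1)
      _ = P2 x + C + η := by ring

end Pool.Agent.Helper94.SI
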